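import Mathlib

set_option autoImplicit false

namespace Pool.Agent.CmpLow

/-- the height of the centre -/
theorem exists_w {s t : ℝ} (hs0 : 0 ≤ s) (hs : s ≤ 1 / 4) (ht : |t| ≤ 1 / 10) :
    ∃ w : ℝ, 1 / 2 ≤ w ∧ w ≤ 9 / 8 ∧ (1 + s ^ 2) * w ^ 2 + 2 * t * w = 1 := by
  obtain ⟨h1, h2⟩ := abs_le.1 ht
  have hs2 : s ^ 2 ≤ 1 / 16 := by nlinarith
  have hs3 : 0 ≤ s ^ 2 := sq_nonneg s
  have hcont : ContinuousOn (fun w : ℝ => (1 + s ^ 2) * w ^ 2 + 2 * t * w) (Set.Icc (1 / 2) (9 / 8)) := by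
    fun_prop
  have hmem : (1 : ℝ) ∈ Set.Icc ((fun w : ℝ => (1 + s ^ 2) * w ^ 2 + 2 * t * w) (1 / 2))
      ((fun w : ℝ => (1 + s ^ 2) * w ^ 2 + 2 * t * w) (9 / 8)) := by
    constructor
    · show (1 + s ^ 2) * (1 / 2 : ℝ) ^ 2 + 2 * t * (1 / 2) ≤ 1
      nlinarith
    · show (1 : ℝ) ≤ (1 + s ^ 2) * (9 / 8) ^ 2 + 2 * t * (9 / 8)
      nlinarith
  obtain ⟨w, hw, hw1⟩ := intermediate_value_Icc (by norm_num) hcont hmem
  exact ⟨w, hw.1, hw.2, hw1⟩

theorem dist_le_one_iff (u v : EuclideanSpace ℝ (Fin 2)) :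
    dist u v ≤ 1 ↔ (u 0 - v 0) ^ 2 + (u 1 - v 1) ^ 2 ≤ 1 := by
  rw [EuclideanSpace.dist_eq, Real.sqrt_le_iff]
  simp [Fin.sum_univ_two, Real.dist_eq, sq_abs]

/-- (B) Points of a grid and lines as a unit disk graph, both sides small. -/
theorem geo (N : ℕ) (hN : 0 < N) :
    ∃ (p : Fin N × Fin (2 * N ^ 2) → EuclideanSpace ℝ (Fin 2))
      (b : (Fin N × Fin (N ^ 2)) × Bool → EuclideanSpace ℝ (Fin 2)),
      (∀ x y, dist (p x) (p y) ≤ 1) ∧ (∀ x y, dist (b x) (b y) ≤ 1) ∧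
      (∀ x l, dist (p x) (b (l, true)) ≤ 1 ↔ (x.2 : ℕ) ≤ l.1 * x.1 + l.2) ∧
      (∀ x l, dist (p x) (b (l, false)) ≤ 1 ↔ (x.2 : ℕ) < l.1 * x.1 + l.2) := by
  have hN1 : (1 : ℝ) ≤ N := by exact_mod_cast hN
  have hN0 : (0 : ℝ) < N := by linarith
  set θ : ℝ := 1 / (4 * N) with hθ
  set η : ℝ := 1 / (16 * N ^ 3) with hη
  have hθ0 : 0 < θ := by positivity
  have hη0 : 0 < η := by positivity
  have hθN : θ * N = 1 / 4 := by rw [hθ]; field_simp
  have hηN : η * N ^ 3 = 1 / 16 := by rw [hη]; field_simp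
  have hη1 : η * N ≤ 1 / 16 := by
    have : η * N ≤ η * N ^ 3 := by
      apply mul_le_mul_of_nonneg_left _ hη0.le
      nlinarith [sq_nonneg ((N : ℝ) - 1), mul_pos hN0 hN0]
    linarith
  -- size of the grid points
  have hX : ∀ x : Fin N, 0 ≤ η * (x : ℝ) ∧ η * (x : ℝ) ≤ η * N := by
    intro x
    refine ⟨by positivity, mul_le_mul_of_nonneg_left ?_ hη0.le⟩
    exact_mod_cast x.2.le
  have hY : ∀ y : Fin (2 * N ^ 2), 0 ≤ η * θ * (y : ℝ) ∧ η * θ * (y : ℝ) ≤ η * N / 2 := by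
    intro y
    refine ⟨by positivity, ?_⟩
    have h1 : (y : ℝ) ≤ 2 * N ^ 2 := by
      have := y.2.le
      exact_mod_cast this
    calc η * θ * (y : ℝ) ≤ η * θ * (2 * N ^ 2) := mul_le_mul_of_nonneg_left h1 (by positivity)
      _ = 2 * η * N * (θ * N) := by ring
      _ = η * N / 2 := by rw [hθN]; ring
  have hsz : ∀ (x : Fin N) (y : Fin (2 * N ^ 2)),
      (η * (x : ℝ)) ^ 2 + (η * θ * (y : ℝ)) ^ 2 ≤ η * θ / 2 := by
    intro x y
    obtain ⟨a1, a2⟩ := hX x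
    obtain ⟨b1, b2⟩ := hY y
    have e1 : (η * (x : ℝ)) ^ 2 ≤ (η * N) ^ 2 := by gcongr
    have e2 : (η * θ * (y : ℝ)) ^ 2 ≤ (η * N / 2) ^ 2 := by gcongr
    have e3 : (η * N) ^ 2 + (η * N / 2) ^ 2 ≤ 2 * (η * N) ^ 2 := by nlinarith [sq_nonneg (η * N)]
    have e4 : 2 * (η * N) ^ 2 = η * θ / 2 := by
      have : 2 * (η * N) ^ 2 * (4 * N) = (η * θ / 2) * (4 * N) := by
        have l1 : 2 * (η * N) ^ 2 * (4 * N) = 8 * η * (η * N ^ 3) := by ring
        have l2 : (η * θ / 2) * (4 * N) = 2 * η * (θ * N) := by ring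
        rw [l1, l2, hηN, hθN]; ring
      exact mul_right_cancel₀ (by positivity) this
    linarith
  -- the line parameters
  have hs : ∀ a : Fin N, 0 ≤ θ * (a : ℝ) ∧ θ * (a : ℝ) ≤ 1 / 4 := by
    intro a
    refine ⟨by positivity, ?_⟩
    rw [← hθN]
    apply mul_le_mul_of_nonneg_left _ hθ0.le
    exact_mod_cast a.2.le
  have ht : ∀ (c : Fin (N ^ 2)) (e : Bool),
      |η * θ * ((c : ℝ) + (if e then 1 / 2 else -(1 / 2)))| ≤ 1 / 10 := by
    intro c e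
    have h1 : (c : ℝ) ≤ N ^ 2 := by
      have := c.2.le
      exact_mod_cast this
    have h0 : (0 : ℝ) ≤ (c : ℝ) := by positivity
    have h2 : |(c : ℝ) + (if e then 1 / 2 else -(1 / 2))| ≤ 2 * N ^ 2 := by
      have hN2 : (1 : ℝ) ≤ N ^ 2 := by nlinarith
      rw [abs_le]
      cases e
      · simp only [Bool.false_eq_true, if_false]
        constructor <;> nlinarith
      · simp only [if_true]
        constructor <;> nlinarith
    rw [abs_mul, abs_of_pos (by positivity : 0 < η * θ)]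
    calc η * θ * |(c : ℝ) + (if e then 1 / 2 else -(1 / 2))|
        ≤ η * θ * (2 * N ^ 2) := mul_le_mul_of_nonneg_left h2 (by positivity)
      _ = 2 * (η * N) * (θ * N) := by ring
      _ = (η * N) / 2 := by rw [hθN]; ring
      _ ≤ 1 / 10 := by linarith
  choose w hw1 hw2 hw3 using fun l : (Fin N × Fin (N ^ 2)) × Bool =>
    exists_w (hs l.1.1).1 (hs l.1.1).2 (ht l.1.2 l.2)
  refine ⟨fun x => !₂[η * (x.1 : ℝ), η * θ * (x.2 : ℝ)],
    fun l => !₂[θ * (l.1.1 : ℝ) * w l, -w l], ?_, ?_, ?_, ?_⟩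
  · intro x y
    rw [dist_le_one_iff]
    simp only [Matrix.cons_val_zero, Matrix.cons_val_one]
    obtain ⟨a1, a2⟩ := hX x.1
    obtain ⟨b1, b2⟩ := hY x.2
    obtain ⟨a1', a2'⟩ := hX y.1
    obtain ⟨b1', b2'⟩ := hY y.2
    have e1 : |η * (x.1 : ℝ) - η * (y.1 : ℝ)| ≤ 1 / 16 := by rw [abs_le]; constructor <;> linarith
    have e2 : |η * θ * (x.2 : ℝ) - η * θ * (y.2 : ℝ)| ≤ 1 / 16 := by
      rw [abs_le]; constructor <;> linarith
    have f1 := sq_le_sq' (abs_le.1 e1).1 (abs_le.1 e1).2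
    have f2 := sq_le_sq' (abs_le.1 e2).1 (abs_le.1 e2).2
    linarith [f1, f2, (by norm_num : (1 / 16 : ℝ) ^ 2 + (1 / 16) ^ 2 ≤ 1)]
  · intro x y
    rw [dist_le_one_iff]
    simp only [Matrix.cons_val_zero, Matrix.cons_val_one]
    have r1 : ∀ l, 0 ≤ θ * (l.1.1 : ℝ) * w l ∧ θ * (l.1.1 : ℝ) * w l ≤ 9 / 32 := by
      intro l
      have h0 := (hs l.1.1).1
      have h1 := (hs l.1.1).2
      have h2 := hw1 l
      have h3 := hw2 l
      constructor
      · exact mul_nonneg h0 (by linarith)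
      · nlinarith
    obtain ⟨a1, a2⟩ := r1 x
    obtain ⟨a1', a2'⟩ := r1 y
    have f1 : (θ * (x.1.1 : ℝ) * w x - θ * (y.1.1 : ℝ) * w y) ^ 2 ≤ (9 / 32) ^ 2 := by
      apply sq_le_sq' <;> linarith
    have f2 : (-w x - -w y) ^ 2 ≤ (5 / 8) ^ 2 := by
      apply sq_le_sq' <;> linarith [hw1 x, hw2 x, hw1 y, hw2 y]
    linarith [f1, f2, (by norm_num : (9 / 32 : ℝ) ^ 2 + (5 / 8) ^ 2 ≤ 1)]
  · intro x l
    rw [dist_le_one_iff]
    simp only [Matrix.cons_val_zero, Matrix.cons_val_one]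
    have h3 := hw3 (l, true)
    have h1 := hw1 (l, true)
    simp only [if_true] at h3
    set W := w (l, true) with hW
    have key : (η * (x.1 : ℝ) - θ * (l.1 : ℝ) * W) ^ 2 + (η * θ * (x.2 : ℝ) - -W) ^ 2 =
        1 + ((η * (x.1 : ℝ)) ^ 2 + (η * θ * (x.2 : ℝ)) ^ 2) -
          2 * W * (η * θ) * ((l.1 : ℝ) * x.1 + l.2 - x.2 + 1 / 2) := by
      linear_combination h3
    rw [key]
    have hz := hsz x.1 x.2
    have hz0 : 0 ≤ (η * (x.1 : ℝ)) ^ 2 + (η * θ * (x.2 : ℝ)) ^ 2 := by positivity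
    have hηθ : 0 < η * θ := by positivity
    constructor
    · intro h
      by_contra hc
      rw [not_le] at hc
      have hc' : (l.1 : ℝ) * x.1 + l.2 + 1 ≤ x.2 := by exact_mod_cast hc
      have : 2 * W * (η * θ) * ((l.1 : ℝ) * x.1 + l.2 - x.2 + 1 / 2) < 0 := by
        apply mul_neg_of_pos_of_neg
        · positivity
        · linarith
      linarith
    · intro h
      have hc' : (x.2 : ℝ) ≤ (l.1 : ℝ) * x.1 + l.2 := by exact_mod_cast h
      have : 2 * W * (η * θ) * (1 / 2) ≤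
          2 * W * (η * θ) * ((l.1 : ℝ) * x.1 + l.2 - x.2 + 1 / 2) := by
        apply mul_le_mul_of_nonneg_left _ (by positivity)
        linarith
      nlinarith
  · intro x l
    rw [dist_le_one_iff]
    simp only [Matrix.cons_val_zero, Matrix.cons_val_one]
    have h3 := hw3 (l, false)
    have h1 := hw1 (l, false)
    simp only [Bool.false_eq_true, if_false] at h3
    set W := w (l, false) with hW
    have key : (η * (x.1 : ℝ) - θ * (l.1 : ℝ) * W) ^ 2 + (η * θ * (x.2 : ℝ) - -W) ^ 2 =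
        1 + ((η * (x.1 : ℝ)) ^ 2 + (η * θ * (x.2 : ℝ)) ^ 2) -
          2 * W * (η * θ) * ((l.1 : ℝ) * x.1 + l.2 - x.2 - 1 / 2) := by
      linear_combination h3
    rw [key]
    have hz := hsz x.1 x.2
    have hz0 : 0 ≤ (η * (x.1 : ℝ)) ^ 2 + (η * θ * (x.2 : ℝ)) ^ 2 := by positivity
    have hηθ : 0 < η * θ := by positivity
    constructor
    · intro h
      by_contra hc
      rw [not_lt] at hc
      have hc' : (l.1 : ℝ) * x.1 + l.2 ≤ x.2 := by exact_mod_cast hc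
      have : 2 * W * (η * θ) * ((l.1 : ℝ) * x.1 + l.2 - x.2 - 1 / 2) < 0 := by
        apply mul_neg_of_pos_of_neg
        · positivity
        · linarith
      linarith
    · intro h
      have hc' : (x.2 : ℝ) + 1 ≤ (l.1 : ℝ) * x.1 + l.2 := by exact_mod_cast h
      have : 2 * W * (η * θ) * (1 / 2) ≤
          2 * W * (η * θ) * ((l.1 : ℝ) * x.1 + l.2 - x.2 - 1 / 2) := by
        apply mul_le_mul_of_nonneg_left _ (by positivity)
        linarith
      nlinarith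

end Pool.Agent.CmpLow
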