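import Mathlib

set_option autoImplicit false

namespace Pool.Agent.CmpLow

theorem le_iff_div {a t m : ℕ} (hne : a / m ≠ t / m) : a ≤ t ↔ a / m < t / m := by
  constructor
  · intro h
    exact lt_of_le_of_ne (Nat.div_le_div_right h) hne
  · intro h
    by_contra hcon
    exact absurd (Nat.div_le_div_right (c := m) (not_le.1 hcon).le) (not_le.2 h)

/-- The level at which a number leaves the binary tree of the thresholds. -/
theorem level {Q : Type*} [Nonempty Q] {h x : ℕ} {τ : Q → ℕ} (hh : 0 < h) (hx : x < 2 ^ h)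
    (hτ : ∀ q, τ q < 2 ^ h) : ∃ (j : Fin h) (q : Q) (e : Fin 2),
      x / 2 ^ (j : ℕ) = 2 * (τ q / 2 ^ ((j : ℕ) + 1)) + (e : ℕ) ∧
      ∀ y, y / 2 ^ (j : ℕ) = x / 2 ^ (j : ℕ) →
        ∀ q', (x ≤ τ q' ↔ y ≤ τ q') ∧ (τ q' ≤ x ↔ τ q' ≤ y) := by
  classical
  have hex : ∃ k, 1 ≤ k ∧ ∃ q, x / 2 ^ k = τ q / 2 ^ k := by
    obtain ⟨q⟩ := ‹Nonempty Q›
    exact ⟨h, hh, q, by rw [Nat.div_eq_of_lt hx, Nat.div_eq_of_lt (hτ q)]⟩
  have hle : Nat.find hex ≤ h := by
    obtain ⟨q⟩ := ‹Nonempty Q›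
    exact Nat.find_min' hex ⟨hh, q, by rw [Nat.div_eq_of_lt hx, Nat.div_eq_of_lt (hτ q)]⟩
  obtain ⟨h1, q, hq⟩ := Nat.find_spec hex
  have hmin : ∀ m, m < Nat.find hex → ¬ (1 ≤ m ∧ ∃ q, x / 2 ^ m = τ q / 2 ^ m) :=
    fun m hm => Nat.find_min hex hm
  generalize Nat.find hex = k at h1 hq hle hmin
  obtain ⟨j, rfl⟩ : ∃ j, k = j + 1 := ⟨k - 1, by omega⟩
  refine ⟨⟨j, by omega⟩, q, ⟨(x / 2 ^ j) % 2, Nat.mod_lt _ (by norm_num)⟩, ?_, ?_⟩
  · show x / 2 ^ j = 2 * (τ q / 2 ^ (j + 1)) + (x / 2 ^ j) % 2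
    rw [← hq, pow_succ, ← Nat.div_div_eq_div_mul]
    exact (Nat.div_add_mod (x / 2 ^ j) 2).symm
  · intro y hy q'
    change y / 2 ^ j = x / 2 ^ j at hy
    by_cases hj : j = 0
    · subst hj
      simp only [pow_zero, Nat.div_one] at hy
      rw [hy]
      exact ⟨Iff.rfl, Iff.rfl⟩
    · have hne : x / 2 ^ j ≠ τ q' / 2 ^ j := by
        intro he
        exact hmin j (by omega) ⟨by omega, q', he⟩
      have hne' : y / 2 ^ j ≠ τ q' / 2 ^ j := by
        rw [hy]
        exact hne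
      rw [le_iff_div hne, le_iff_div hne', le_iff_div hne.symm, le_iff_div hne'.symm, hy]
      exact ⟨Iff.rfl, Iff.rfl⟩

/-- (A) Incidences decided by comparisons of bounded complexity and without K_{2,2} are few. -/
theorem inc_bound {P L C Q : Type*} [Fintype P] [Fintype L] [Fintype C] [Fintype Q] [Nonempty Q]
    {K h : ℕ} (κ : P → Fin K → ℕ) (τ : L → Q → ℕ) (col : P → C) (I : P → L → Prop)
    (hh : 0 < h) (hκ : ∀ p i, κ p i < 2 ^ h) (hτ : ∀ l q, τ l q < 2 ^ h)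
    (H : ∀ p p' l, col p = col p' →
      (∀ i q, (κ p i ≤ τ l q ↔ κ p' i ≤ τ l q) ∧ (τ l q ≤ κ p i ↔ τ l q ≤ κ p' i)) →
      I p l → I p' l)
    (hfree : ∀ p p' l l', p ≠ p' → I p l → I p' l → I p l' → I p' l' → l = l') :
    Nat.card {x : P × L // I x.1 x.2} ≤
      Fintype.card L * (h * (Fintype.card Q * 2)) ^ K * Fintype.card C
        + Fintype.card P * h ^ K := by
  classical
  have hdata : ∀ (x : {x : P × L // I x.1 x.2}) (i : Fin K), ∃ d : Fin h × (Q × Fin 2),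
      κ x.1.1 i / 2 ^ (d.1 : ℕ) = 2 * (τ x.1.2 d.2.1 / 2 ^ ((d.1 : ℕ) + 1)) + (d.2.2 : ℕ) ∧
      ∀ y, y / 2 ^ (d.1 : ℕ) = κ x.1.1 i / 2 ^ (d.1 : ℕ) →
        ∀ q', (κ x.1.1 i ≤ τ x.1.2 q' ↔ y ≤ τ x.1.2 q') ∧
          (τ x.1.2 q' ≤ κ x.1.1 i ↔ τ x.1.2 q' ≤ y) := by
    intro x i
    obtain ⟨j, q, e, h1, h2⟩ := level (τ := τ x.1.2) hh (hκ x.1.1 i) (hτ x.1.2)
    exact ⟨(j, q, e), h1, h2⟩
  choose D hD1 hD2 using hdata
  -- membership of the incidences of the points of the cell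
  have hcell : ∀ (x : {x : P × L // I x.1 x.2}) (p' : P), col p' = col x.1.1 →
      (∀ i, κ p' i / 2 ^ ((D x i).1 : ℕ) = κ x.1.1 i / 2 ^ ((D x i).1 : ℕ)) → I p' x.1.2 := by
    intro x p' hc hi
    exact H x.1.1 p' x.1.2 hc.symm (fun i q => hD2 x i _ (hi i) q) x.2
  let bad : {x : P × L // I x.1 x.2} → Prop := fun x => ∃ p', p' ≠ x.1.1 ∧ col p' = col x.1.1 ∧
    ∀ i, κ p' i / 2 ^ ((D x i).1 : ℕ) = κ x.1.1 i / 2 ^ ((D x i).1 : ℕ)
  let f : {x : P × L // I x.1 x.2} →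
      (L × (Fin K → Fin h × (Q × Fin 2)) × C) ⊕ (P × (Fin K → Fin h)) := fun x =>
    if bad x then Sum.inr (x.1.1, fun i => (D x i).1) else Sum.inl (x.1.2, D x, col x.1.1)
  have hf : Function.Injective f := by
    intro x y hxy
    by_cases hx : bad x
    · by_cases hy : bad y
      · simp only [f, if_pos hx, if_pos hy, Sum.inr.injEq, Prod.mk.injEq] at hxy
        obtain ⟨hp, hJ⟩ := hxy
        obtain ⟨p', h1, h2, h3⟩ := hx
        have i1 : I p' x.1.2 := hcell x p' h2 h3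
        have i2 : I p' y.1.2 := by
          refine hcell y p' (h2.trans (by rw [hp])) (fun i => ?_)
          have e1 : (D x i).1 = (D y i).1 := congrFun hJ i
          have := h3 i
          rw [e1, hp] at this
          exact this
        have i3 : I x.1.1 y.1.2 := by
          rw [hp]
          exact y.2
        have hl : x.1.2 = y.1.2 := hfree p' x.1.1 _ _ h1 i1 x.2 i2 i3
        exact Subtype.ext (Prod.ext hp hl)
      · simp only [f, if_pos hx, if_neg hy] at hxy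
        exact absurd hxy (by simp)
    · by_cases hy : bad y
      · simp only [f, if_neg hx, if_pos hy] at hxy
        exact absurd hxy (by simp)
      · simp only [f, if_neg hx, if_neg hy, Sum.inl.injEq, Prod.mk.injEq] at hxy
        obtain ⟨hl, hDD, hc⟩ := hxy
        have hp : y.1.1 = x.1.1 := by
          by_contra hne
          apply hx
          refine ⟨y.1.1, hne, hc.symm, fun i => ?_⟩
          have e1 := hD1 x i
          have e2 := hD1 y i
          have e3 : D x i = D y i := congrFun hDD i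
          rw [← e3, ← hl] at e2
          rw [e1, e2]
        exact Subtype.ext (Prod.ext hp.symm hl)
  have hcard := Nat.card_le_card_of_injective f hf
  refine hcard.trans (le_of_eq ?_)
  rw [Nat.card_eq_fintype_card, Fintype.card_sum, Fintype.card_prod, Fintype.card_prod,
    Fintype.card_prod, Fintype.card_fun, Fintype.card_fun, Fintype.card_prod, Fintype.card_prod]
  simp only [Fintype.card_fin]
  ring

end Pool.Agent.CmpLow
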