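import Mathlib

set_option autoImplicit false

namespace Pool.Agent.CmpLow

open Filter Topology in
/-- (Q) The number inequality with growing `K`. -/
theorem numQ : ∃ c : ℝ, 0 < c ∧ ∃ n₀ : ℕ, ∀ n : ℕ, n₀ ≤ n →
    1 ≤ c * Real.log n / Real.log (Real.log n) ∧
    ∃ r : ℕ, 0 < r ∧ 4 * (2 ^ r) ^ 3 ≤ n ∧
      ∀ K : ℕ, (K : ℝ) ≤ c * Real.log n / Real.log (Real.log n) →
        (4 * K) ^ K * K ^ K * (3 * r + 2 + K) ^ K + 2 * (3 * r + 2 + K) ^ K < 2 ^ r := by
  have hcast : Tendsto (fun n : ℕ => Real.log (n : ℝ)) atTop atTop :=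
    Real.tendsto_log_atTop.comp tendsto_natCast_atTop_atTop
  obtain ⟨n₀, hn₀⟩ := eventually_atTop.1 (hcast.eventually_ge_atTop 40000)
  refine ⟨1 / 100, by norm_num, n₀, fun n hn => ?_⟩
  have hL := hn₀ n hn
  have hn0 : n ≠ 0 := by
    rintro rfl
    norm_num at hL
  have hnpos : (0 : ℝ) < n := by exact_mod_cast Nat.pos_of_ne_zero hn0
  set L : ℝ := Real.log n with hLdef
  have hL0 : 0 < L := by linarith
  set lam : ℝ := Real.log L with hlam
  have l2a := Real.log_two_gt_d9
  have l2b := Real.log_two_lt_d9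
  have hlam4 : 4 * Real.log 2 ≤ lam := by
    have h1 : Real.log 16 ≤ lam := Real.log_le_log (by norm_num) (by linarith)
    have h2 : Real.log 16 = 4 * Real.log 2 := by
      rw [show (16 : ℝ) = 2 ^ 4 by norm_num, Real.log_pow]; norm_num
    linarith
  have hlam0 : 0 < lam := by linarith
  have hlamL : 100 * lam ≤ L := by
    have hs0 : 0 < Real.sqrt L := Real.sqrt_pos.2 hL0
    have hss : Real.sqrt L * Real.sqrt L = L := Real.mul_self_sqrt hL0.le
    have h1 : lam = 2 * Real.log (Real.sqrt L) := by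
      rw [hlam, Real.log_sqrt hL0.le]; ring
    have h3 := Real.log_le_sub_one_of_pos hs0
    have h2 : 200 ≤ Real.sqrt L := Real.le_sqrt_of_sq_le (by linarith)
    nlinarith
  have hlog3 : Real.log 3 ≤ 2 * Real.log 2 := by
    have h1 : Real.log 3 ≤ Real.log 4 := Real.log_le_log (by norm_num) (by norm_num)
    have h2 : Real.log 4 = 2 * Real.log 2 := by
      rw [show (4 : ℝ) = 2 ^ 2 by norm_num, Real.log_pow]; norm_num
    linarith
  refine ⟨?_, ?_⟩
  · rw [le_div_iff₀ hlam0]; linarith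
  · set N : ℕ := Nat.log 2 n with hN
    have hN1 : 2 ^ N ≤ n := Nat.pow_log_le_self 2 hn0
    have hN2 : n < 2 ^ (N + 1) := Nat.lt_pow_succ_log_self (by norm_num) n
    have hN1r : (N : ℝ) * Real.log 2 ≤ L := by
      have : Real.log ((2 : ℝ) ^ N) ≤ L :=
        Real.log_le_log (by positivity) (by exact_mod_cast hN1)
      rwa [Real.log_pow] at this
    have hN2r : L ≤ ((N : ℝ) + 1) * Real.log 2 := by
      have : L ≤ Real.log ((2 : ℝ) ^ (N + 1)) :=
        Real.log_le_log hnpos (by exact_mod_cast hN2.le)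
      rw [Real.log_pow] at this
      push_cast at this
      exact this
    have hNbig : (1000 : ℝ) ≤ N := by nlinarith
    have hNbig' : 1000 ≤ N := by exact_mod_cast hNbig
    set r : ℕ := (N - 2) / 3 with hr
    have hr1 : 3 * r + 2 ≤ N := by omega
    have hr2 : N ≤ 3 * r + 4 := by omega
    refine ⟨r, by omega, ?_, fun K hK => ?_⟩
    · calc 4 * (2 ^ r) ^ 3 = 2 ^ (3 * r + 2) := by ring
        _ ≤ 2 ^ N := Nat.pow_le_pow_right (by norm_num) hr1
        _ ≤ n := hN1
    · have hr1r : 3 * (r : ℝ) + 2 ≤ N := by exact_mod_cast hr1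
      have hr2r : (N : ℝ) ≤ 3 * r + 4 := by exact_mod_cast hr2
      have hK0 : (0 : ℝ) ≤ K := Nat.cast_nonneg K
      have hKlam : (K : ℝ) * lam ≤ L / 100 := by
        rw [le_div_iff₀ hlam0] at hK
        linarith
      have hKL : (K : ℝ) ≤ L / 100 := by nlinarith
      have hNL : (N : ℝ) ≤ 2 * L := by nlinarith
      have hM1 : 1 ≤ 3 * L := by linarith
      have b1 : (4 * (K : ℝ)) ≤ 3 * L := by linarith
      have b2 : (K : ℝ) ≤ 3 * L := by linarith
      have b3 : 3 * (r : ℝ) + 2 + K ≤ 3 * L := by linarith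
      have c1 : (4 * (K : ℝ)) ^ K ≤ (3 * L) ^ K := pow_le_pow_left₀ (by positivity) b1 K
      have c2 : (K : ℝ) ^ K ≤ (3 * L) ^ K := pow_le_pow_left₀ (by positivity) b2 K
      have c3 : (3 * (r : ℝ) + 2 + K) ^ K ≤ (3 * L) ^ K := pow_le_pow_left₀ (by positivity) b3 K
      set P : ℝ := (3 * L) ^ K with hP
      have hP1 : 1 ≤ P := one_le_pow₀ hM1
      have hPP : P ≤ P ^ 3 := le_self_pow₀ hP1 (by norm_num)
      have hPe : P ^ 3 ≤ Real.exp (6 * (L / 100)) := by
        have h1 : P ^ 3 = Real.exp (3 * K * Real.log (3 * L)) := by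
          rw [hP, ← pow_mul, ← Real.exp_log (show (0 : ℝ) < (3 * L) ^ (K * 3) by positivity),
            Real.log_pow]
          push_cast
          congr 1
          ring
        rw [h1]
        apply Real.exp_le_exp.2
        have h2 : Real.log (3 * L) ≤ 2 * lam := by
          rw [Real.log_mul (by norm_num) hL0.ne']
          linarith
        calc 3 * (K : ℝ) * Real.log (3 * L) ≤ 3 * K * (2 * lam) :=
              mul_le_mul_of_nonneg_left h2 (by positivity)
          _ = 6 * (K * lam) := by ring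
          _ ≤ 6 * (L / 100) := by linarith
      have hfin : 3 * Real.exp (6 * (L / 100)) < 2 ^ r := by
        have h1 : (2 : ℝ) ^ r = Real.exp (r * Real.log 2) := by
          rw [← Real.log_pow, Real.exp_log (by positivity)]
        have h2 : (3 : ℝ) = Real.exp (Real.log 3) := (Real.exp_log (by norm_num)).symm
        rw [h1, h2, ← Real.exp_add]
        apply Real.exp_lt_exp.2
        nlinarith
      have key : (4 * (K : ℝ)) ^ K * (K : ℝ) ^ K * (3 * (r : ℝ) + 2 + K) ^ K +
          2 * (3 * (r : ℝ) + 2 + K) ^ K < 2 ^ r := by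
        have e1 : (4 * (K : ℝ)) ^ K * (K : ℝ) ^ K * (3 * (r : ℝ) + 2 + K) ^ K ≤ P * P * P := by
          gcongr
        have e2 : P * P * P = P ^ 3 := by ring
        linarith
      exact_mod_cast key

end Pool.Agent.CmpLow
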