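import Mathlib

set_option autoImplicit false

namespace Pool.Agent.CmpLow

/-- (D) Ranks. -/
theorem ranks {V α : Type*} [Fintype V] [LinearOrder α] {K : ℕ} (l : V → Fin K → α) :
    ∃ ρ : V → Fin K → ℕ, (∀ v i, ρ v i < Fintype.card V * K) ∧
      ∀ u i v j, ρ u i ≤ ρ v j ↔ l u i ≤ l v j := by
  classical
  let Z : Finset α := Finset.univ.image (fun x : V × Fin K => l x.1 x.2)
  have hmem : ∀ v i, l v i ∈ Z := fun v i =>
    Finset.mem_image.mpr ⟨(v, i), Finset.mem_univ _, rfl⟩
  have hlt : ∀ u i v j, l u i < l v j →
      (Z.filter (· < l u i)).card < (Z.filter (· < l v j)).card := by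
    intro u i v j h
    refine Finset.card_lt_card (Finset.ssubset_iff_subset_ne.mpr ⟨?_, ?_⟩)
    · intro z hz
      rw [Finset.mem_filter] at hz ⊢
      exact ⟨hz.1, hz.2.trans h⟩
    · intro he
      have : l u i ∈ Z.filter (· < l v j) := Finset.mem_filter.mpr ⟨hmem u i, h⟩
      rw [← he, Finset.mem_filter] at this
      exact lt_irrefl _ this.2
  refine ⟨fun v i => (Z.filter (· < l v i)).card, fun v i => ?_, fun u i v j => ?_⟩
  · have h1 : (Z.filter (· < l v i)).card < Z.card := by
      refine Finset.card_lt_card (Finset.ssubset_iff_subset_ne.mpr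
        ⟨Finset.filter_subset _ _, ?_⟩)
      intro he
      have : l v i ∈ Z.filter (· < l v i) := by
        rw [he]
        exact hmem v i
      rw [Finset.mem_filter] at this
      exact lt_irrefl _ this.2
    have h2 : Z.card ≤ Fintype.card V * K := by
      refine Finset.card_image_le.trans ?_
      rw [Finset.card_univ, Fintype.card_prod, Fintype.card_fin]
    exact h1.trans_le h2
  · constructor
    · intro h
      by_contra hn
      exact absurd (hlt v j u i (not_le.mp hn)) (not_lt.mpr h)
    · intro h
      refine Finset.card_le_card fun z hz => ?_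
      rw [Finset.mem_filter] at hz ⊢
      exact ⟨hz.1, hz.2.trans_le h⟩

end Pool.Agent.CmpLow
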